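import Pool.Agent.Helper8.SPV.Stmts3

set_option autoImplicit false

namespace Pool.Agent.Helper8.SPV

open AlgebraicGeometry CategoryTheory CategoryTheory.Limits

theorem ADM_pow {A L : Type} [Field L] [CommRing A] [Algebra A L] {n : ℕ} (v : Fin n → L)
    (O : Subring L) (hO : ∀ a : A, algebraMap A L a ∈ O) (I : Submodule A L)
    (hI : ∀ a ∈ I, ∀ i, a * v i ∈ O) (m : ℕ) :
    ∀ g ∈ I ^ m, ∀ l : List (Fin n), l.length = m → g * (l.map v).prod ∈ O := by
  induction m with
  | zero =>
    intro g hg l hl
    rw [List.length_eq_zero_iff] at hl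
    subst hl
    rw [pow_zero] at hg
    obtain ⟨a, rfl⟩ := Submodule.mem_one.mp hg
    simpa using hO a
  | succ m ih =>
    intro g hg l hl
    rw [pow_succ] at hg
    cases l with
    | nil => simp at hl
    | cons i l =>
      simp only [List.length_cons, Nat.add_right_cancel_iff] at hl
      simp only [List.map_cons, List.prod_cons]
      refine Submodule.mul_induction_on hg ?_ ?_
      · intro a ha b hb
        have h1 := ih a ha l hl
        have h2 := hI b hb i
        have : a * b * (v i * (l.map v).prod) = (a * (l.map v).prod) * (b * v i) := by ring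
        rw [this]
        exact mul_mem h1 h2
      · intro a b ha hb
        rw [add_mul]
        exact add_mem ha hb

theorem ADM_lam {L : Type} [Field L] (R : ValuationSubring L) {n : ℕ} (v c : Fin n → L)
    (hc : ∀ i, c i ∈ R) (m : ℕ) :
    ∀ g : L, (∀ l : List (Fin n), l.length = m → g * (l.map v).prod ∈ R) →
      g * (∑ i, v i * c i) ^ m ∈ R := by
  induction m with
  | zero =>
    intro g hg
    simpa using hg [] rfl
  | succ m ih =>
    intro g hg
    have h1 : g * (∑ i, v i * c i) ^ (m + 1) =
        ∑ i, c i * ((g * v i) * (∑ i, v i * c i) ^ m) := by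
      rw [pow_succ', ← mul_assoc, Finset.mul_sum, Finset.sum_mul]
      apply Finset.sum_congr rfl
      intro i _
      ring
    rw [h1]
    apply sum_mem
    intro i _
    apply mul_mem (hc i)
    apply ih
    intro l hl
    have := hg (i :: l) (by simp [hl])
    simpa [mul_assoc] using this

theorem ADM_coef {L M : Type} [Field L] [AddCommGroup M] [Module L M] (O : Subring L) {n : ℕ}
    (e : Fin n → M) (he : LinearIndependent L e) (v : Fin n → L) {w : M}
    (hv : ∑ i, v i • e i = w) (a : L) (h : a • w ∈ Submodule.span O (Set.range e)) (i : Fin n) :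
    a * v i ∈ O := by
  obtain ⟨c, hc⟩ := (Submodule.mem_span_range_iff_exists_fun O).mp h
  have h5 : ∑ i, (c i : L) • e i = a • w := hc
  have h4 : ∑ i, (a * v i - (c i : L)) • e i = 0 := by
    simp only [sub_smul, mul_smul]
    rw [Finset.sum_sub_distrib, ← Finset.smul_sum, hv, h5, sub_self]
  have h6 := Fintype.linearIndependent_iff.mp he _ h4 i
  rw [sub_eq_zero] at h6
  rw [h6]
  exact (c i).2

theorem st_ADM (hC : ST_CENTER) (hH : ST_HARTOGS) (hF : ST_FREE) : ST_ADM := by
  intro k _ _ X _ s _ _ p F m hm g hg R hR lam hlam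
  obtain ⟨x, hx⟩ := hC k X s R hR
  obtain ⟨n, e, he, hfree⟩ := hF k X s p x
  have hfx := hfree x specializes_rfl
  -- the generator in terms of the basis
  have hgen : F.gen ∈ Submodule.span (FF s) (Set.range e) := by
    have h1 : F.gen ∈ Submodule.span (FF s) (F.stalk x : Set (Om k (FF s) p)) := by
      rw [F.rank_one x]
      exact Submodule.mem_span_singleton_self _
    have h2 : Submodule.span (FF s) (F.stalk x : Set (Om k (FF s) p)) ≤
        Submodule.span (FF s) (Set.range e) := by
      rw [Submodule.span_le]
      intro ω hω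
      have h3 := F.stalk_le x hω
      rw [hfx] at h3
      exact Submodule.span_subset_span (locRing s x) (FF s) (Set.range e) h3
    exact h2 h1
  obtain ⟨v, hv⟩ := (Submodule.mem_span_range_iff_exists_fun (FF s)).mp hgen
  -- the values of the functional
  have hc : ∀ i, lam (e i) ∈ R := by
    intro i
    have h1 : e i ∈ forms k (FF s) p (locRing s x) := by
      rw [hfx]
      exact Submodule.subset_span ⟨i, rfl⟩
    unfold forms at h1
    refine Submodule.span_induction (p := fun ω _ => lam ω ∈ R) ?_ ?_ ?_ ?_ h1
    · rintro _ ⟨f, hf, rfl⟩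
      apply hlam
      exact Submodule.subset_span ⟨f, fun i => hx _ (hf i), rfl⟩
    · rw [map_zero]
      exact zero_mem _
    · intro a b _ _ ha hb
      rw [map_add]
      exact add_mem ha hb
    · intro c ω _ hω
      change lam ((c : FF s) • ω) ∈ R
      rw [map_smul, smul_eq_mul]
      exact mul_mem (hx _ c.2) hω
  have key : ∀ l : List (Fin n), l.length = m → g * (l.map v).prod ∈ R := by
    intro l hl
    apply hx
    apply hH k X s x
    intro y hyx hy
    have h1 := hg y hy
    refine ADM_pow v (locRing s y) (fun a => a.2) (F.frac y) ?_ m g h1 l hl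
    intro a ha i
    have h2 : a • F.gen ∈ F.stalk y := ha
    have h3 := F.stalk_le y h2
    rw [hfree y hyx] at h3
    exact ADM_coef (locRing s y) e he v hv a h3 i
  have hfin := ADM_lam R v (fun i => lam (e i)) hc m g key
  have h7 : lam F.gen = ∑ i, v i * lam (e i) := by
    rw [← hv, map_sum]
    apply Finset.sum_congr rfl
    intro i _
    rw [map_smul, smul_eq_mul]
  rw [h7]
  exact hfin

end Pool.Agent.Helper8.SPV
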