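import Pool.Agent.Helper8.SPV.Stmts2

set_option autoImplicit false

namespace Pool.Agent.Helper8.SPV

open IntermediateField (adjoin)

/-- two functionals on forms which agree on `df_1 ∧ ... ∧ df_p` are equal -/
theorem SPEC2_ext {k L : Type} [Field k] [Field L] [Algebra k L] {p : ℕ}
    {lam lam' : Om k L p →ₗ[L] L} (h : ∀ f, lam (dd k L p f) = lam' (dd k L p f)) :
    lam = lam' := by
  have hs := exteriorPower.ιMulti_span_of_span L p (Ω[L⁄k])
    (s := Set.range (KaehlerDifferential.D k L)) (KaehlerDifferential.span_range_derivation k L)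
  refine LinearMap.ext_on hs ?_
  rintro _ ⟨a, ha, rfl⟩
  have h1 : ∀ i, ∃ f, KaehlerDifferential.D k L f = a i := fun i => ha ⟨i, rfl⟩
  choose f hf using h1
  have h2 : (exteriorPower.ιMulti L p) a = dd k L p f := by
    unfold dd
    congr 1
    funext i
    exact (hf i).symm
  rw [h2]
  exact h f

/-- a derivation killing `k` is `k`-linear -/
noncomputable def SPEC2_der {k L : Type} [Field k] [Field L] [Algebra k L]
    (D : Derivation ℤ L L) (h : ∀ c : k, D (algebraMap k L c) = 0) : Derivation k L L where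
  toFun := D
  map_add' := map_add D
  map_smul' c f := by
    rw [Algebra.smul_def, D.leibniz, h]
    simp [Algebra.smul_def]
  map_one_eq_zero' := D.map_one_eq_zero
  leibniz' := D.leibniz

theorem SPEC2_der_apply {k L : Type} [Field k] [Field L] [Algebra k L]
    (D : Derivation ℤ L L) (h : ∀ c : k, D (algebraMap k L c) = 0) (f : L) :
    SPEC2_der D h f = D f := rfl

theorem SPEC2_Qmem {k L : Type} [Field k] [Field L] [Algebra k L] {b : Fin 10 → k} {t : L}
    {M : IntermediateField k L} (ht : t ∈ M) : Qf b t ∈ M :=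
  sum_mem fun _ _ => mul_mem (M.algebraMap_mem _) (pow_mem ht _)

theorem SPEC2_alg {k L : Type} [Field k] [Field L] [Algebra k L] {b : Fin 10 → k}
    {t w x y : L} (h : ES b t w x y) : Algebra.IsAlgebraic (adjoin k {t, x}) L := by
  have ht : t ∈ adjoin k {t, x} := IntermediateField.subset_adjoin _ _ (by simp)
  have hx : x ∈ adjoin k {t, x} := IntermediateField.subset_adjoin _ _ (by simp)
  have hin : ∀ z ∈ adjoin k {t, x}, IsAlgebraic (adjoin k {t, x}) z := fun z hz =>
    isAlgebraic_algebraMap (⟨z, hz⟩ : adjoin k {t, x})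
  have hle : adjoin k {t, w, x, y} ≤
      (algebraicClosure (adjoin k {t, x}) L).restrictScalars k := by
    rw [IntermediateField.adjoin_le_iff]
    intro z hz
    rw [SetLike.mem_coe, IntermediateField.mem_restrictScalars, mem_algebraicClosure_iff]
    rcases hz with rfl | rfl | rfl | rfl
    · exact hin _ ht
    · apply IsAlgebraic.of_pow (n := 2) (by norm_num)
      rw [h.pt.e1]
      exact hin _ (add_mem (pow_mem ht 3) (one_mem _))
    · exact hin _ hx
    · apply IsAlgebraic.of_pow (n := 2) (by norm_num)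
      rw [h.pt.e2]
      exact hin _ (add_mem (add_mem (pow_mem hx 3) hx) (SPEC2_Qmem ht))
  refine ⟨fun z => ?_⟩
  have hz : z ∈ adjoin k {t, w, x, y} := by
    rw [h.gen]
    trivial
  have := hle hz
  rwa [IntermediateField.mem_restrictScalars, mem_algebraicClosure_iff] at this

theorem SPEC2_w {k L : Type} [Field k] [Field L] [Algebra k L] {b : Fin 10 → k}
    {t w x y : L} (h : ES b t w x y) : w ≠ 0 := by
  intro hw
  have ht : Transcendental k t := by
    have := h.indep.transcendental 0
    simpa using this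
  apply ht
  have h1 := h.pt.e1
  rw [hw] at h1
  refine ⟨Polynomial.X ^ 3 + 1, ?_, ?_⟩
  · intro h2
    have := congrArg (fun p => Polynomial.coeff p 3) h2
    simp [Polynomial.coeff_one] at this
  · simp
    rw [← h1]
    simp

theorem SPEC2_y {F L : Type} [Field F] [Field L] [Algebra F L] {q : F} {x y : L}
    (h : EL F L q x y) : y ≠ 0 := by
  intro hy
  apply h.tr
  have h1 := h.eq
  rw [hy] at h1
  refine ⟨Polynomial.X ^ 3 + Polynomial.X + Polynomial.C q, ?_, ?_⟩
  · intro h2
    have := congrArg (fun p => Polynomial.coeff p 3) h2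
    simp [Polynomial.coeff_X] at this
  · simp
    rw [← h1]
    simp

theorem st_SPEC2 (hELD : ST_ELD) (hREG : ST_ELREG) (hB1 : ST_ELB1) (hB2 : ST_ELB2)
    (hFUNC : ST_FUNC) (hOM : ST_OM) (hBASE : ST_BASE) : ST_SPEC2 := by
  intro k L _ _ _ _ _ b t w x y hES hb9 v hv m hm g1 g2 hg1 hg2 hA1 hA2
  have : CharZero L := charZero_of_injective_algebraMap (algebraMap k L).injective
  have : CharZero (adjoin k {t, w}) :=
    charZero_of_injective_algebraMap (algebraMap k (adjoin k {t, w})).injective
  obtain ⟨-, tF, wF, qF, htF, hwF, hqF, hEL, δ0, hδt, hδw, hδq⟩ := hBASE k L b t w x y hES hb9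
  obtain ⟨Df, Ds, hD⟩ := hELD (adjoin k {t, w}) L qF x y hEL (δ0.restrictScalars ℤ)
  have htower : ∀ c : k, algebraMap k L c =
      algebraMap (adjoin k {t, w}) L (algebraMap k (adjoin k {t, w}) c) := fun c => rfl
  have hDfk : ∀ c : k, Df (algebraMap k L c) = 0 := fun c => by rw [htower, hD.Df0]
  have hDsk : ∀ c : k, Ds (algebraMap k L c) = 0 := fun c => by
    rw [htower, hD.Ds0]
    have : (δ0.restrictScalars ℤ) (algebraMap k (adjoin k {t, w}) c) = 0 :=
      δ0.map_algebraMap c
    rw [this, map_zero]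
  obtain ⟨lam, hlam1, hlam2⟩ := hFUNC k L 2 ![SPEC2_der Ds hDsk, SPEC2_der Df hDfk]
  have hlam3 : ∀ f, lam (dd k L 2 f) = Ds (f 0) * Df (f 1) - Ds (f 1) * Df (f 0) := by
    intro f
    rw [hlam1, Matrix.det_fin_two]
    rfl
  have hreg : ∀ g : L, Adm k L 2 v m g → ∃ c : adjoin k {t, w},
      g * lam v ^ m = algebraMap (adjoin k {t, w}) L c := by
    intro g hg
    apply hREG (adjoin k {t, w}) L qF x y hEL
    intro R hR hRt
    have hRk : ∀ c, algebraMap k L c ∈ R := fun c => by
      rw [htower]
      exact hR _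
    by_cases hx : x ∈ R
    · obtain ⟨h1, h2⟩ := hB1 (adjoin k {t, w}) L qF x y hEL _ Df Ds hD R hR hRt hx
      apply hg R hRk lam
      apply hlam2
      intro i
      fin_cases i
      · exact h2
      · exact h1
    · obtain ⟨-, h1, h2⟩ := hB2 (adjoin k {t, w}) L qF x y hEL _ Df Ds hD R hR hRt hx
      set c := Ds (x / y) / Df (x / y) with hc
      have hD'k : ∀ e : k, (Ds - c • Df) (algebraMap k L e) = 0 := fun e => by
        rw [Derivation.sub_apply, Derivation.smul_apply, hDsk, hDfk, smul_zero, sub_zero]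
      obtain ⟨lam', hlam1', hlam2'⟩ :=
        hFUNC k L 2 ![SPEC2_der (Ds - c • Df) hD'k, SPEC2_der Df hDfk]
      have heq : lam' = lam := by
        apply SPEC2_ext
        intro f
        rw [hlam1', hlam3, Matrix.det_fin_two]
        change (Ds - c • Df) (f 0) * Df (f 1) - (Ds - c • Df) (f 1) * Df (f 0) = _
        rw [Derivation.sub_apply, Derivation.smul_apply, Derivation.sub_apply,
          Derivation.smul_apply, smul_eq_mul, smul_eq_mul]
        ring
      rw [← heq]
      apply hg R hRk lam'
      apply hlam2'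
      intro i
      fin_cases i
      · intro f hf
        exact h2 f hf
      · exact h1
  obtain ⟨c1, hc1⟩ := hreg g1 hA1
  obtain ⟨c2, hc2⟩ := hreg g2 hA2
  have hl : lam v ≠ 0 := by
    intro h0
    apply hv
    have hdet : SPEC2_der Ds hDsk t * SPEC2_der Df hDfk x -
        SPEC2_der Ds hDsk x * SPEC2_der Df hDfk t ≠ 0 := by
      simp only [SPEC2_der_apply]
      have e1 : Df t = 0 := by
        rw [← htF]
        exact hD.Df0 tF
      have e2 : Ds t = 2 * w := by
        have e4 := hD.Ds0 tF
        have e3 : (δ0.restrictScalars ℤ) tF = δ0 tF := rfl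
        have e5 : algebraMap (adjoin k {t, w}) L (2 * wF) = 2 * (wF : L) := by
          rw [map_mul, map_ofNat]
          rfl
        rw [e3, hδt, e5] at e4
        have e6 : Ds (tF : L) = 2 * (wF : L) := e4
        rwa [htF, hwF] at e6
      rw [e1, e2, hD.Dfx, mul_zero, sub_zero]
      exact mul_ne_zero (mul_ne_zero two_ne_zero (SPEC2_w hES))
        (mul_ne_zero two_ne_zero (SPEC2_y hEL))
    exact (((hOM k L t x hES.indep (SPEC2_alg hES)).2 _ _ hdet).2 lam hlam3) v h0
  have hlm : lam v ^ m ≠ 0 := pow_ne_zero _ hl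
  have : g1 / g2 = ((c1 / c2 : adjoin k {t, w}) : L) := by
    rw [show ((c1 / c2 : adjoin k {t, w}) : L) = (c1 : L) / (c2 : L) from by push_cast; rfl]
    rw [show (c1 : L) = g1 * lam v ^ m from hc1.symm, show (c2 : L) = g2 * lam v ^ m from hc2.symm]
    field_simp
  rw [this]
  exact (c1 / c2).2

end Pool.Agent.Helper8.SPV
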